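import Mathlib
import Pool.Agent.H28.Dixm

open Filter Topology

namespace Pool.Agent.Results.MP_9105af_an.NotNormal

variable {H : Type} [NormedAddCommGroup H] [InnerProductSpace ℂ H] [CompleteSpace H]

/-- `μ` lists the eigenvalues of the positive compact operator `T` in nonincreasing order. -/
def IsEigenSeq (T : H →L[ℂ] H) (μ : ℕ → ℝ) : Prop :=
  Antitone μ ∧ (∀ k, 0 ≤ μ k) ∧ ∃ e : ℕ → H, Orthonormal ℂ e ∧
    ∀ x, HasSum (fun k => (μ k : ℂ) • inner ℂ (e k) x • e k) (T x)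

/-- Logarithmic means of a sequence. -/
noncomputable def logAvg (μ : ℕ → ℝ) (N : ℕ) : ℝ :=
  (∑ k ∈ Finset.range (N + 1), μ k) / Real.log (N + 2)

/-- Generalised limit on bounded real sequences. -/
def IsGenLimit (ω : BoundedContinuousFunction ℕ ℝ →ₗ[ℝ] ℝ) : Prop :=
  (∀ x, 0 ≤ x → 0 ≤ ω x) ∧ ω 1 = 1 ∧
    ∀ x : BoundedContinuousFunction ℕ ℝ, Tendsto x atTop (𝓝 0) → ω x = 0

/-- The positive operator `T` has Dixmier trace `c` for `ω`. -/
def DixmierTrace (ω : BoundedContinuousFunction ℕ ℝ →ₗ[ℝ] ℝ) (T : H →L[ℂ] H) (c : ℝ) : Prop :=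
  ∃ (μ : ℕ → ℝ) (x : BoundedContinuousFunction ℕ ℝ),
    IsEigenSeq T μ ∧ (∀ N, x N = logAvg μ N) ∧ ω x = c

/-- Spectral triple conditions for the unital star algebra generated by `s`. -/
def IsSpectralTriple (s : Set (H →L[ℂ] H)) (D : H →ₗ.[ℂ] H) : Prop :=
  s.Countable ∧ IsSelfAdjoint D ∧
    ∀ a ∈ StarAlgebra.adjoin ℂ s, ∃ C : ℝ, ∀ x : D.domain, ∃ h : a x ∈ D.domain,
      ‖D ⟨a x, h⟩ - a (D x)‖ ≤ C * ‖(x : H)‖

/-- `R` is the compact positive operator whose square inverts `1 + D ^ 2`. -/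
def IsInvBracket (D : H →ₗ.[ℂ] H) (R : H →L[ℂ] H) : Prop :=
  R.IsPositive ∧ IsCompactOperator R ∧
    ∀ x, ∃ (h₁ : R (R x) ∈ D.domain) (h₂ : D ⟨_, h₁⟩ ∈ D.domain), R (R x) + D ⟨_, h₂⟩ = x

/-- Bicommutant of the unital star algebra generated by `s`. -/
def bicomm (s : Set (H →L[ℂ] H)) : Set (H →L[ℂ] H) :=
  Set.centralizer (Set.centralizer (StarAlgebra.adjoin ℂ s : Set (H →L[ℂ] H)))

omit [CompleteSpace H] in
theorem dix {ω : BoundedContinuousFunction ℕ ℝ →ₗ[ℝ] ℝ} (hω : IsGenLimit ω) {T : H →L[ℂ] H}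
    {μ : ℕ → ℝ} {c : ℝ} (h : IsEigenSeq T μ) (hc : Tendsto (logAvg μ) atTop (𝓝 c)) :
    DixmierTrace ω T c := by
  obtain ⟨C, hC⟩ := isBounded_iff_forall_norm_le.1 (Metric.isBounded_range_of_tendsto _ hc)
  refine ⟨μ, BoundedContinuousFunction.ofNormedAddCommGroupDiscrete (logAvg μ) C
    (fun n => hC _ ⟨n, rfl⟩), h, fun _ => rfl, ?_⟩
  set x := BoundedContinuousFunction.ofNormedAddCommGroupDiscrete (logAvg μ) C
    (fun n => hC _ ⟨n, rfl⟩)
  have h1 := hω.2.2 (x - c • 1) (by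
    have := hc.sub_const c
    rw [sub_self] at this
    refine this.congr fun n => ?_
    simp [x])
  rw [map_sub, map_smul, hω.2.1] at h1
  simpa [sub_eq_zero] using h1

theorem sep : TopologicalSpace.SeparableSpace Pool.Agent.H28.Dixm.H := by
  rw [← TopologicalSpace.isSeparable_univ_iff]
  refine ((Set.countable_range Pool.Agent.H28.Dixm.e).isSeparable.span (R := ℂ)).closure.mono
    fun x _ => ?_
  have h1 := Pool.Agent.H28.Dixm.hasSum_diag (T := 1) (w := fun _ => 1) (fun _ _ => by simp)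
    Function.injective_id (fun n hn => absurd ⟨n, rfl⟩ hn) x
  refine mem_closure_of_tendsto h1 (Eventually.of_forall fun t => ?_)
  exact Submodule.sum_mem _ fun k _ => Submodule.smul_mem _ _ (Submodule.smul_mem _ _
    (Submodule.subset_span ⟨k, rfl⟩))

open Pool.Agent.H28 in
theorem result : ∃ (H : Type) (_ : NormedAddCommGroup H) (_ : InnerProductSpace ℂ H)
    (_ : CompleteSpace H) (_ : TopologicalSpace.SeparableSpace H) (s : Set (H →L[ℂ] H)) (D : H →ₗ.[ℂ] H) (R : H →L[ℂ] H) (r : ℕ → ℝ)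
    (P : ℕ → H →L[ℂ] H),
    IsSpectralTriple s D ∧ IsInvBracket D R ∧ IsEigenSeq R r ∧
    (∀ p : ℝ, 1 < p → Summable fun k => r k ^ p) ∧
    (∀ m : ℝ, m < 1 → ∃ p : ℝ, m < p ∧ ¬ Summable fun k => r k ^ p) ∧
    BddAbove (Set.range (logAvg r)) ∧
    (∀ S ∈ bicomm s, FiniteDimensional ℂ (LinearMap.range (S : H →ₗ[ℂ] H)) → S = 0) ∧
    (∀ i, P i ∈ bicomm s ∧ IsStarProjection (P i)) ∧
    (Pairwise fun i j => P i * P j = 0) ∧ (∀ x, HasSum (fun i => P i x) x) ∧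
    ∀ ω, IsGenLimit ω → DixmierTrace ω R 1 ∧ ∀ i, DixmierTrace ω (P i * R) 0 := by
  have hR : IsEigenSeq Dixm.R Dixm.r := ⟨Dixm.r_anti, fun k => (Dixm.r_pos k).le, Dixm.e, Dixm.e_on,
    Dixm.hasSum_diag (fun _ _ => rfl) Function.injective_id (fun n hn => absurd ⟨n, rfl⟩ hn)⟩
  refine ⟨Dixm.H, inferInstance, inferInstance, inferInstance, sep, Set.range Dixm.P, Dixm.D, Dixm.R, Dixm.r, Dixm.P, ⟨Set.countable_range _, Dixm.D_sa,
    fun a ha => ⟨0, fun x => ?_⟩⟩, ⟨Dixm.R_pos,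
    Dixm.dg_compact _ _ Dixm.r_tendsto Dixm.r_anti (fun k => (Dixm.r_pos k).le), Dixm.R_sq⟩, hR,
    fun p hp => Dixm.summ_rpow hp, fun m hm => ⟨1, hm, Dixm.not_summ⟩, Dixm.avg_r.bddAbove_range,
    Dixm.no_fin, fun i => ⟨Set.subset_centralizer_centralizer
      (StarAlgebra.subset_adjoin ℂ _ ⟨i, rfl⟩), Dixm.P_proj i⟩, Dixm.P_orth, Dixm.P_sum,
    fun ω hω => ⟨dix hω hR Dixm.avg_r, fun i => dix hω ?_ (Dixm.avg_pair i)⟩⟩
  · obtain ⟨h, e⟩ := Dixm.comm_D ha x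
    exact ⟨h, by simp [e]⟩
  · have hinj : Function.Injective (Nat.pair i) := fun a b h => (Nat.pair_eq_pair.1 h).2
    refine ⟨fun a b h => Dixm.r_anti ((strictMono_nat_of_lt_succ fun n =>
      Nat.pair_lt_pair_right i n.lt_succ_self).monotone h), fun k => (Dixm.r_pos _).le,
      fun k => Dixm.e (Nat.pair i k), Dixm.e_on.comp _ hinj, fun x => ?_⟩
    have := Dixm.hasSum_diag (T := Dixm.P i * Dixm.R)
      (w := fun n => if n.unpair.1 = i then Dixm.r n else 0) (fun x n => by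
        rw [ContinuousLinearMap.mul_apply, Dixm.P_apply]
        split_ifs
        · rfl
        · simp) hinj
      (fun n hn => if_neg fun h => hn ⟨n.unpair.2, by rw [← h, Nat.pair_unpair]⟩) x
    simpa using this

end Pool.Agent.Results.MP_9105af_an.NotNormal
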